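import Pool.Agent.Helper55.FR.GoalsB

/-!
# CNT: counting the functions which differ from the reference in a rooted set
-/

namespace Pool.Agent.Helper67.FR

open Finset Pool.Agent.Helper55.FR

section

variable {V : Type} [Fintype V] [DecidableEq V]

/-- Adjacency of blocks. -/
def RB (n : Equiv.Perm V) (m : V → V) (blk : V → V) (s t : V) : Prop :=
  ∃ x y, blk x = s ∧ blk y = t ∧ (adj n m x y ∨ adj n m y x)

theorem RB_symm (n : Equiv.Perm V) (m : V → V) (blk : V → V) (s t : V) (h : RB n m blk s t) :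
    RB n m blk t s := by
  obtain ⟨x, y, hx, hy, h⟩ := h
  exact ⟨y, x, hy, hx, h.symm⟩

open Classical in
theorem RB_deg {n : Equiv.Perm V} {m : V → V} {L : ℕ} {blk : V → V} (hC : Cub n m)
    (hB : Blk n L blk) (s : V) : (univ.filter fun t => RB n m blk s t).card ≤ 6 * L := by
  have hsub : (univ.filter fun t => RB n m blk s t) ⊆
      (univ.filter fun x => blk x = s).biUnion
        fun x => ({blk (n x), blk (n.symm x), blk (m x)} : Finset V) := by
    intro t ht
    rw [mem_filter] at ht
    obtain ⟨_, x, y, hx, hy, h⟩ := ht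
    rw [mem_biUnion]
    refine ⟨x, by simp [hx], ?_⟩
    have hy' : y = n x ∨ y = n.symm x ∨ y = m x := by
      rcases h with h | h
      · rcases h with h | h | h
        · exact Or.inl h
        · exact Or.inr (Or.inl (by rw [h]; simp))
        · exact Or.inr (Or.inr h)
      · rcases h with h | h | h
        · exact Or.inr (Or.inl (by rw [h]; simp))
        · exact Or.inl h
        · exact Or.inr (Or.inr (by rw [h, hC.mm]))
    rw [← hy]
    rcases hy' with h | h | h <;> simp [h]
  refine (card_le_card hsub).trans ?_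
  refine (card_biUnion_le).trans ?_
  have h3 : ∀ x ∈ (univ.filter fun x => blk x = s),
      ({blk (n x), blk (n.symm x), blk (m x)} : Finset V).card ≤ 3 := fun x _ => card_le_three
  refine (sum_le_sum h3).trans ?_
  rw [sum_const, smul_eq_mul]
  have h4 : (univ.filter fun x => blk x = s).card ≤ 2 * L := by
    by_cases he : ∃ v, blk v = s
    · obtain ⟨v, rfl⟩ := he
      have := hB.up v
      convert this
    · have : (univ.filter fun x => blk x = s) = ∅ := by
        ext x
        simp only [mem_filter, mem_univ, true_and, notMem_empty, iff_false]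
        exact fun hx => he ⟨x, hx⟩
      rw [this]
      simp
  omega

end

theorem cnt (hT : TchStmt) (hCon : ConStmt) (hL : CnlStmt) : CntStmt := by
  classical
  intro V _ _ n m L blk hC hL1 hB ρ Z A D k u hA
  have hL0 : (0 : ℝ) < L := by exact_mod_cast hL1
  set P : Finset (Finset V) := (univ : Finset (Finset V)).filter
    (fun Y => Rooted (RB n m blk) (Z.image blk) Y ∧ Y.card ≤ k) with hP
  have hY : ∀ f ∈ A, ((D f).image blk) ∈ P ∧ ((D f).image blk).card ≤ k ∧
      (∀ x, blk x ∉ ((D f).image blk) → f x = ρ x) ∧ (Spc n f).card ≤ u := by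
    intro f hf
    obtain ⟨h1, h2, h3, h4⟩ := hA f hf
    have hk : ((D f).image blk).card ≤ k := by
      have h5 := hT V n L blk hB (D f)
      have h6 : L * ((D f).image blk).card ≤ L * k := h5.trans h3
      exact Nat.le_of_mul_le_mul_left h6 hL1
    refine ⟨?_, hk, ?_, h4⟩
    · rw [hP, mem_filter]
      refine ⟨mem_univ _, ?_, hk⟩
      intro S hS hne hcl
      obtain ⟨z, hz, hzZ⟩ := h2 ((D f).filter fun x => blk x ∈ S) (filter_subset _ _) (by
        obtain ⟨s, hs⟩ := hne
        obtain ⟨x, hx, rfl⟩ := mem_image.1 (hS hs)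
        exact ⟨x, mem_filter.2 ⟨hx, hs⟩⟩) (by
        intro x hx y hy hxy
        rw [mem_filter] at hx
        rw [mem_filter]
        exact ⟨hy, hcl (blk x) hx.2 (blk y) (mem_image_of_mem _ hy)
          ⟨x, y, rfl, rfl, Or.inl hxy⟩⟩)
      rw [mem_filter] at hz
      exact ⟨blk z, hz.2, mem_image_of_mem _ hzZ⟩
    · intro x hx
      exact h1 x fun hxD => hx (mem_image_of_mem _ hxD)
  have hcount := hL V n L blk hB ρ P A (fun f => (D f).image blk) k u hY
  -- the number of rooted sets
  have hcon := hCon V (RB n m blk) (6 * L) (RB_symm n m blk) (by omega)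
    (fun x => by
      have := RB_deg hC hB x
      convert this) (Z.image blk)
  have e1 : (4 * ((6 * L : ℕ) : ℝ)) = 24 * L := by push_cast; ring
  have e2 : (2 * ((6 * L : ℕ) : ℝ)) = 12 * L := by push_cast; ring
  rw [e1, e2] at hcon
  have hq0 : (0 : ℝ) ≤ 1 / (24 * L) := by positivity
  have hq1 : (1 : ℝ) / (24 * L) ≤ 1 := by
    rw [div_le_one (by positivity)]
    have : (1 : ℝ) ≤ L := by exact_mod_cast hL1
    linarith
  have hPs : (P.card : ℝ) * (1 / (24 * (L : ℝ))) ^ k ≤
      (1 + 1 / (12 * (L : ℝ))) ^ (Z.image blk).card := by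
    refine le_trans ?_ hcon
    calc (P.card : ℝ) * (1 / (24 * (L : ℝ))) ^ k = ∑ Y ∈ P, (1 / (24 * (L : ℝ))) ^ k := by
          rw [sum_const, nsmul_eq_mul]
      _ ≤ ∑ Y ∈ P, (1 / (24 * (L : ℝ))) ^ Y.card := by
          refine sum_le_sum fun Y hYP => ?_
          rw [hP, mem_filter] at hYP
          exact pow_le_pow_of_le_one hq0 hq1 hYP.2.2
      _ ≤ _ := by
          refine sum_le_sum_of_subset_of_nonneg ?_ fun Y _ _ => by positivity
          intro Y hYP
          rw [hP, mem_filter] at hYP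
          rw [mem_filter]
          exact ⟨mem_univ _, hYP.2.1⟩
  have hZ : (1 + 1 / (12 * (L : ℝ))) ^ (Z.image blk).card ≤ (1 + 1 / (12 * (L : ℝ))) ^ Z.card := by
    refine pow_le_pow_right₀ ?_ card_image_le
    have : (0 : ℝ) ≤ 1 / (12 * L) := by positivity
    linarith
  have hPc : (P.card : ℝ) ≤ (24 * (L : ℝ)) ^ k * (1 + 1 / (12 * (L : ℝ))) ^ Z.card := by
    have h24 : (0 : ℝ) < (24 * (L : ℝ)) ^ k := by positivity
    have h1 := hPs.trans hZ
    have h2 : (1 / (24 * (L : ℝ))) ^ k = 1 / (24 * (L : ℝ)) ^ k := by rw [one_div_pow]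
    rw [h2, mul_one_div, div_le_iff₀ h24] at h1
    linarith
  have hc' : (A.card : ℝ) ≤ (P.card : ℝ) * 10 ^ k * 25 ^ (L * u) := by exact_mod_cast hcount
  calc (A.card : ℝ) ≤ (P.card : ℝ) * 10 ^ k * 25 ^ (L * u) := hc'
    _ ≤ ((24 * (L : ℝ)) ^ k * (1 + 1 / (12 * (L : ℝ))) ^ Z.card) * 10 ^ k * 25 ^ (L * u) := by
        gcongr
    _ = (240 * (L : ℝ)) ^ k * 25 ^ (L * u) * (1 + 1 / (12 * (L : ℝ))) ^ Z.card := by
        have : (240 * (L : ℝ)) ^ k = (24 * (L : ℝ)) ^ k * 10 ^ k := by
          rw [← mul_pow]; ring_nf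
        rw [this]
        ring

end Pool.Agent.Helper67.FR
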