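import Pool.Agent.Helper92.FR.GoalsA

/-!
Packet FR-DENS: the density of the image of the product law.
-/

set_option autoImplicit false

namespace Pool.Agent.Helper67.FR

open MeasureTheory Set
open Pool.Agent.Helper92.FR

noncomputable section

theorem MM_pos (a : ℝ) : 0 < MM a := by
  unfold MM
  apply intervalIntegral.intervalIntegral_pos_of_pos
  · exact (Continuous.intervalIntegrable (by fun_prop) _ _)
  · intro x
    exact Real.exp_pos _
  · norm_num

/-- density of `tl a` -/
def dn (a x : ℝ) : ℝ := (Icc (0 : ℝ) 1).indicator (fun x => Real.exp (a * x) / MM a) x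

theorem dn_nonneg (a x : ℝ) : 0 ≤ dn a x := by
  unfold dn
  apply indicator_nonneg
  intro y _
  exact div_nonneg (Real.exp_pos _).le (MM_pos a).le

theorem dn_meas (a : ℝ) : Measurable (dn a) := by
  unfold dn
  exact Measurable.indicator (by fun_prop) measurableSet_Icc

theorem dn_int (a : ℝ) : Integrable (dn a) := by
  unfold dn
  rw [integrable_indicator_iff measurableSet_Icc]
  exact (Continuous.continuousOn (by fun_prop)).integrableOn_compact isCompact_Icc

theorem tl_eq (a : ℝ) : tl a = volume.withDensity fun x => ENNReal.ofReal (dn a x) := by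
  unfold tl
  rw [← withDensity_indicator measurableSet_Icc]
  congr 1
  ext x
  unfold dn
  by_cases h : x ∈ Icc (0 : ℝ) 1
  · rw [indicator_of_mem h, indicator_of_mem h]
  · rw [indicator_of_notMem h, indicator_of_notMem h, ENNReal.ofReal_zero]

instance tl_fin (a : ℝ) : IsFiniteMeasure (tl a) := by
  rw [tl_eq]
  exact isFiniteMeasure_withDensity_ofReal (dn_int a).2

theorem pi_dens {ι : Type} [Fintype ι] (f : ι → ℝ → ℝ) (h0 : ∀ i x, 0 ≤ f i x)
    (hi : ∀ i, Integrable (f i)) :
    Measure.pi (fun i => (volume : Measure ℝ).withDensity fun x => ENNReal.ofReal (f i x)) =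
      (volume : Measure (ι → ℝ)).withDensity fun z => ENNReal.ofReal (∏ i, f i (z i)) := by
  have : ∀ i, IsFiniteMeasure
      ((volume : Measure ℝ).withDensity fun x => ENNReal.ofReal (f i x)) := fun i =>
    isFiniteMeasure_withDensity_ofReal (hi i).2
  apply Measure.pi_eq
  intro s hs
  rw [withDensity_apply _ (MeasurableSet.univ_pi hs), ← lintegral_indicator
    (MeasurableSet.univ_pi hs)]
  have h1 : ∀ z : ι → ℝ, (univ.pi s).indicator
      (fun z => ENNReal.ofReal (∏ i, f i (z i))) z =
      ENNReal.ofReal (∏ i, (s i).indicator (f i) (z i)) := by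
    intro z
    by_cases hz : z ∈ univ.pi s
    · rw [indicator_of_mem hz]
      congr 1
      refine Finset.prod_congr rfl fun i _ => ?_
      rw [indicator_of_mem (hz i (mem_univ i))]
    · rw [indicator_of_notMem hz]
      have h2 : ∃ i, z i ∉ s i := by
        by_contra h3
        push Not at h3
        exact hz fun i _ => h3 i
      obtain ⟨i, hi2⟩ := h2
      rw [Finset.prod_eq_zero (Finset.mem_univ i) (indicator_of_notMem hi2 _),
        ENNReal.ofReal_zero]
  rw [lintegral_congr h1]
  have hint : ∀ i, Integrable ((s i).indicator (f i)) := fun i => (hi i).indicator (hs i)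
  have hnn : ∀ i x, 0 ≤ (s i).indicator (f i) x := fun i x =>
    indicator_nonneg (fun y _ => h0 i y) x
  have hI : Integrable (fun z : ι → ℝ => ∏ i, (s i).indicator (f i) (z i)) := by
    rw [volume_pi]
    exact Integrable.fintype_prod_dep hint
  rw [← ofReal_integral_eq_lintegral_ofReal hI
    (Filter.Eventually.of_forall fun z => Finset.prod_nonneg fun i _ => hnn i _)]
  rw [integral_fintype_prod_volume_eq_prod, ENNReal.ofReal_prod_of_nonneg
    (fun i _ => integral_nonneg (hnn i))]
  refine Finset.prod_congr rfl fun i _ => ?_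
  rw [withDensity_apply _ (hs i), ofReal_integral_eq_lintegral_ofReal (hint i)
    (Filter.Eventually.of_forall (hnn i)), ← lintegral_indicator (hs i)]
  refine lintegral_congr fun x => ?_
  by_cases hx : x ∈ s i
  · rw [indicator_of_mem hx, indicator_of_mem hx]
  · rw [indicator_of_notMem hx, indicator_of_notMem hx, ENNReal.ofReal_zero]

variable {N d : ℕ}

theorem pr_eq (C : Fin N → Fin d → ℝ) (S lam : Fin d → ℝ) : pr C S lam =
    volume.withDensity fun z => ENNReal.ofReal (∏ j, dn (aa C S lam j) (z j)) := by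
  unfold pr
  simp_rw [tl_eq]
  exact pi_dens _ (fun i x => dn_nonneg _ x) fun i => dn_int _

/-- the set of the pairs `(x, y)` -/
def KK (C : Fin N → Fin d → ℝ) (S e : Fin d → ℝ) (T : Matrix (Fin d) (Fin d) ℝ) :
    Set ((Fin N → ℝ) × (Fin d → ℝ)) :=
  {p | (∀ j, 0 ≤ p.1 j ∧ p.1 j ≤ 1) ∧
    ∀ i, 0 ≤ (∑ j, C j i * p.1 j) - (e i + T⁻¹.mulVec p.2 i) ∧
      (∑ j, C j i * p.1 j) - (e i + T⁻¹.mulVec p.2 i) ≤ S i}

theorem KK_meas (C : Fin N → Fin d → ℝ) (S e : Fin d → ℝ) (T : Matrix (Fin d) (Fin d) ℝ) :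
    MeasurableSet (KK C S e T) := by
  apply IsClosed.measurableSet
  unfold KK
  have hc : ∀ i, Continuous fun p : (Fin N → ℝ) × (Fin d → ℝ) =>
      (∑ j, C j i * p.1 j) - (e i + T⁻¹.mulVec p.2 i) := by
    intro i
    simp only [Matrix.mulVec, dotProduct]
    fun_prop
  simp only [ofPred_and, ofPred_forall]
  refine IsClosed.inter (isClosed_iInter fun j => ?_) (isClosed_iInter fun i => ?_)
  · exact (isClosed_le continuous_const (by fun_prop)).inter
      (isClosed_le (by fun_prop) continuous_const)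
  · exact (isClosed_le continuous_const (hc i)).inter (isClosed_le (hc i) continuous_const)

/-- the density on the pairs `(x, y)`, without the constant -/
def H1 (C : Fin N → Fin d → ℝ) (S e lam : Fin d → ℝ) (T : Matrix (Fin d) (Fin d) ℝ)
    (p : (Fin N → ℝ) × (Fin d → ℝ)) : ENNReal :=
  (KK C S e T).indicator (fun p => ENNReal.ofReal
    (Real.exp (∑ i, lam i * (e i + T⁻¹.mulVec p.2 i)) / ∏ j, MM (aa C S lam j))) p

theorem H1_meas (C : Fin N → Fin d → ℝ) (S e lam : Fin d → ℝ) (T : Matrix (Fin d) (Fin d) ℝ) :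
    Measurable (H1 C S e lam T) := by
  unfold H1
  refine Measurable.indicator ?_ (KK_meas C S e T)
  have : Continuous fun p : (Fin N → ℝ) × (Fin d → ℝ) =>
      Real.exp (∑ i, lam i * (e i + T⁻¹.mulVec p.2 i)) / ∏ j, MM (aa C S lam j) := by
    simp only [Matrix.mulVec, dotProduct]
    fun_prop
  exact this.measurable.ennreal_ofReal

theorem YY_meas (C : Fin N → Fin d → ℝ) (S e : Fin d → ℝ) (T : Matrix (Fin d) (Fin d) ℝ) :
    Measurable (YY C S e T) := by
  have : Continuous (YY C S e T) := by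
    unfold YY
    fun_prop
  exact this.measurable

/-- `YY` on the pair `(x, s)` -/
theorem YY_pair (C : Fin N → Fin d → ℝ) (S e : Fin d → ℝ) (T : Matrix (Fin d) (Fin d) ℝ)
    (x : Fin N → ℝ) (s : Fin d → ℝ) :
    YY C S e T (Sum.elim x s) = T.mulVec (fun i => (∑ j, C j i * x j) - S i * s i - e i) := by
  ext i
  unfold YY
  simp only [Matrix.mulVec, dotProduct]
  refine Finset.sum_congr rfl fun i' _ => ?_
  congr 1
  rw [Fintype.sum_sum_type]
  simp only [Sum.elim_inl, Sum.elim_inr, col]
  have : ∑ k : Fin d, (if i' = k then - S k else 0) * s k = - (S i' * s i') := by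
    rw [Finset.sum_eq_single i']
    · rw [if_pos rfl]; ring
    · intro b _ hb
      rw [if_neg (Ne.symm hb), zero_mul]
    · intro h
      exact absurd (Finset.mem_univ i') h
  rw [this]
  ring

theorem wy (C : Fin N → Fin d → ℝ) (S e : Fin d → ℝ) (T : Matrix (Fin d) (Fin d) ℝ)
    (hT : T.det ≠ 0) (x : Fin N → ℝ) (s : Fin d → ℝ) (i : Fin d) :
    e i + T⁻¹.mulVec (YY C S e T (Sum.elim x s)) i = (∑ j, C j i * x j) - S i * s i := by
  rw [YY_pair, Matrix.mulVec_mulVec, Matrix.nonsing_inv_mul _ (isUnit_iff_ne_zero.2 hT),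
    Matrix.one_mulVec]
  ring

theorem dens_pair (C : Fin N → Fin d → ℝ) (S e lam : Fin d → ℝ) (T : Matrix (Fin d) (Fin d) ℝ)
    (hS : ∀ i, 0 < S i) (hT : T.det ≠ 0) (x : Fin N → ℝ) (s : Fin d → ℝ) :
    ENNReal.ofReal (∏ j, dn (aa C S lam j) (Sum.elim x s j)) =
      H1 C S e lam T (x, YY C S e T (Sum.elim x s)) := by
  have hmem : (x, YY C S e T (Sum.elim x s)) ∈ KK C S e T ↔
      ∀ j, Sum.elim x s j ∈ Icc (0 : ℝ) 1 := by
    unfold KK
    simp only [mem_ofPred_eq, wy C S e T hT, Sum.forall, Sum.elim_inl, Sum.elim_inr, mem_Icc]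
    refine and_congr_right fun _ => forall_congr' fun i => ?_
    have h1 : (∑ j, C j i * x j) - ((∑ j, C j i * x j) - S i * s i) = S i * s i := by ring
    rw [h1]
    have h2 := hS i
    constructor
    · rintro ⟨h3, h4⟩
      constructor
      · exact nonneg_of_mul_nonneg_right h3 h2
      · nlinarith
    · rintro ⟨h3, h4⟩
      constructor
      · positivity
      · nlinarith
  unfold H1
  by_cases h : ∀ j, Sum.elim x s j ∈ Icc (0 : ℝ) 1
  · rw [indicator_of_mem (hmem.2 h)]
    congr 1
    have h1 : ∀ j, dn (aa C S lam j) (Sum.elim x s j) =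
        Real.exp (aa C S lam j * Sum.elim x s j) / MM (aa C S lam j) := by
      intro j
      unfold dn
      rw [indicator_of_mem (h j)]
    rw [Finset.prod_congr rfl fun j _ => h1 j, Finset.prod_div_distrib, ← Real.exp_sum]
    congr 2
    simp only [wy C S e T hT]
    unfold aa
    simp_rw [Finset.sum_mul]
    rw [Finset.sum_comm]
    refine Finset.sum_congr rfl fun i _ => ?_
    simp_rw [mul_assoc]
    rw [← Finset.mul_sum]
    congr 1
    rw [Fintype.sum_sum_type]
    simp only [Sum.elim_inl, Sum.elim_inr, col]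
    have : ∑ k : Fin d, (if i = k then - S k else 0) * s k = - (S i * s i) := by
      rw [Finset.sum_eq_single i]
      · rw [if_pos rfl]; ring
      · intro b _ hb
        rw [if_neg (Ne.symm hb), zero_mul]
      · intro h
        exact absurd (Finset.mem_univ i) h
    rw [this]
    ring
  · rw [indicator_of_notMem (fun h2 => h (hmem.1 h2))]
    have h2 : ∃ j, Sum.elim x s j ∉ Icc (0 : ℝ) 1 := by
      by_contra h3
      push Not at h3
      exact h h3
    obtain ⟨j, hj⟩ := h2
    have h3 : dn (aa C S lam j) (Sum.elim x s j) = 0 := by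
      unfold dn
      rw [indicator_of_notMem hj]
    rw [Finset.prod_eq_zero (Finset.mem_univ j) h3, ENNReal.ofReal_zero]

/-- change of variables in the inner integral -/
theorem subst (C : Fin N → Fin d → ℝ) (S e : Fin d → ℝ) (T : Matrix (Fin d) (Fin d) ℝ)
    (hS : ∀ i, 0 < S i) (hT : T.det ≠ 0) (x : Fin N → ℝ) (G : (Fin d → ℝ) → ENNReal)
    (hG : Measurable G) :
    ∫⁻ s : Fin d → ℝ, G (YY C S e T (Sum.elim x s)) =
      ENNReal.ofReal (|T.det|⁻¹ * (∏ i, S i)⁻¹) * ∫⁻ y, G y := by
  set M : Matrix (Fin d) (Fin d) ℝ := T * Matrix.diagonal (fun i => - S i) with hM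
  have hSp : 0 < ∏ i, S i := Finset.prod_pos fun i _ => hS i
  have hdet : |M.det| = |T.det| * ∏ i, S i := by
    rw [hM, Matrix.det_mul, Matrix.det_diagonal, abs_mul, Finset.abs_prod]
    congr 1
    refine Finset.prod_congr rfl fun i _ => ?_
    rw [abs_neg, abs_of_pos (hS i)]
  have hM0 : M.det ≠ 0 := by
    rw [← abs_pos, hdet]
    exact mul_pos (abs_pos.2 hT) hSp
  set v : Fin d → ℝ := T.mulVec (fun i => (∑ j, C j i * x j) - e i) with hv
  have h1 : ∀ s : Fin d → ℝ, YY C S e T (Sum.elim x s) = v + Matrix.toLin' M s := by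
    intro s
    rw [YY_pair, hv, Matrix.toLin'_apply, hM, ← Matrix.mulVec_mulVec, ← Matrix.mulVec_add]
    congr 1
    ext i
    simp only [Pi.add_apply, Matrix.mulVec_diagonal]
    ring
  have hlin : Measurable (Matrix.toLin' M) :=
    (LinearMap.continuous_of_finiteDimensional _).measurable
  have hGv : Measurable fun u => G (v + u) := hG.comp (measurable_const_add v)
  calc ∫⁻ s : Fin d → ℝ, G (YY C S e T (Sum.elim x s))
      = ∫⁻ s : Fin d → ℝ, G (v + Matrix.toLin' M s) := lintegral_congr fun s => by rw [h1]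
    _ = ∫⁻ u, G (v + u) ∂(Measure.map (Matrix.toLin' M) volume) := by
        rw [lintegral_map hGv hlin]
    _ = ENNReal.ofReal (|M.det⁻¹|) * ∫⁻ u, G (v + u) := by
        rw [Real.map_matrix_volume_pi_eq_smul_volume_pi hM0, lintegral_smul_measure, smul_eq_mul]
    _ = ENNReal.ofReal (|T.det|⁻¹ * (∏ i, S i)⁻¹) * ∫⁻ y, G y := by
        rw [lintegral_add_left_eq_self (fun y => G y) v, abs_inv, hdet, mul_inv]

theorem pp_eq (C : Fin N → Fin d → ℝ) (S e lam : Fin d → ℝ) (T : Matrix (Fin d) (Fin d) ℝ)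
    (hS : ∀ i, 0 < S i) (y : Fin d → ℝ) :
    ENNReal.ofReal (pp C S e lam T y) = ENNReal.ofReal (|T.det|⁻¹ * (∏ i, S i)⁻¹) *
      ∫⁻ x : Fin N → ℝ, H1 C S e lam T (x, y) := by
  set w : Fin d → ℝ := fun i => e i + T⁻¹.mulVec y i with hw
  set K : Set (Fin N → ℝ) := {x : Fin N → ℝ | (∀ j, 0 ≤ x j ∧ x j ≤ 1) ∧
    ∀ i, 0 ≤ (∑ j, C j i * x j) - w i ∧ (∑ j, C j i * x j) - w i ≤ S i} with hK
  have hSp : 0 < ∏ i, S i := Finset.prod_pos fun i _ => hS i
  have hP : 0 < ∏ j, MM (aa C S lam j) := Finset.prod_pos fun j _ => MM_pos _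
  have hKm : MeasurableSet K := by
    have h1 : K = (fun x : Fin N → ℝ => (x, y)) ⁻¹' (KK C S e T) := by
      ext x
      rw [hK, hw]
      rfl
    rw [h1]
    exact measurable_prodMk_right (KK_meas C S e T)
  have h2 : ∀ x : Fin N → ℝ, H1 C S e lam T (x, y) = K.indicator (fun _ => ENNReal.ofReal
      (Real.exp (∑ i, lam i * w i) / ∏ j, MM (aa C S lam j))) x := by
    intro x
    unfold H1
    by_cases hx : x ∈ K
    · rw [indicator_of_mem hx, indicator_of_mem (show (x, y) ∈ KK C S e T from hx)]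
    · rw [indicator_of_notMem hx, indicator_of_notMem (show (x, y) ∉ KK C S e T from hx)]
  rw [lintegral_congr h2, lintegral_indicator hKm, setLIntegral_const]
  have hfin : volume K ≠ ⊤ := by
    have h3 : K ⊆ Icc 0 1 := by
      intro x hx
      exact ⟨fun j => (hx.1 j).1, fun j => (hx.1 j).2⟩
    exact ((measure_mono h3).trans_lt isCompact_Icc.measure_lt_top).ne
  have h4 : volume K = ENNReal.ofReal (volume K).toReal := (ENNReal.ofReal_toReal hfin).symm
  rw [h4, ← ENNReal.ofReal_mul (by positivity), ← ENNReal.ofReal_mul (by positivity)]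
  congr 1
  unfold pp ff
  change Real.exp (∑ i, lam i * w i) * ((volume K).toReal / ∏ i, S i) /
    ((∏ j, MM (aa C S lam j)) * |T.det|) = _
  field_simp

theorem dens : DensStmt := by
  intro N d C S e lam T hS hT
  set c : ENNReal := ENNReal.ofReal (|T.det|⁻¹ * (∏ i, S i)⁻¹) with hc
  have hH := H1_meas C S e lam T
  have hYm := YY_meas C S e T
  have hppm : Measurable fun y => ENNReal.ofReal (pp C S e lam T y) := by
    have h1 : (fun y => ENNReal.ofReal (pp C S e lam T y)) = fun y =>
        c * ∫⁻ x : Fin N → ℝ, H1 C S e lam T (x, y) := by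
      ext y
      exact pp_eq C S e lam T hS y
    rw [h1]
    exact (hH.lintegral_prod_left').const_mul c
  apply Measure.ext_of_lintegral
  intro φ hφ
  rw [lintegral_map hφ hYm, lintegral_withDensity_eq_lintegral_mul _ hppm hφ, pr_eq]
  have hdm : Measurable fun z : Fin N ⊕ Fin d → ℝ =>
      ENNReal.ofReal (∏ j, dn (aa C S lam j) (z j)) := by
    apply Measurable.ennreal_ofReal
    exact Finset.measurable_prod _ fun j _ => (dn_meas _).comp (measurable_pi_apply j)
  change ∫⁻ a, (φ ∘ YY C S e T) a ∂_ = _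
  rw [lintegral_withDensity_eq_lintegral_mul _ hdm (hφ.comp hYm)]
  have hmp := volume_measurePreserving_sumPiEquivProdPi_symm (fun _ : Fin N ⊕ Fin d => ℝ)
  rw [← hmp.lintegral_comp (hdm.mul (hφ.comp hYm))]
  have hF : Measurable fun p : (Fin N → ℝ) × (Fin d → ℝ) =>
      H1 C S e lam T (p.1, YY C S e T (Sum.elim p.1 p.2)) *
        φ (YY C S e T (Sum.elim p.1 p.2)) := by
    have h1 : Measurable fun p : (Fin N → ℝ) × (Fin d → ℝ) => YY C S e T (Sum.elim p.1 p.2) := by
      refine hYm.comp ?_
      rw [measurable_pi_iff]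
      rintro (j | j)
      · exact (measurable_pi_apply j).comp measurable_fst
      · exact (measurable_pi_apply j).comp measurable_snd
    exact (hH.comp (measurable_fst.prodMk h1)).mul (hφ.comp h1)
  calc ∫⁻ p : (Fin N → ℝ) × (Fin d → ℝ), ((fun z : Fin N ⊕ Fin d → ℝ =>
          ENNReal.ofReal (∏ j, dn (aa C S lam j) (z j))) * (φ ∘ YY C S e T))
          ((MeasurableEquiv.sumPiEquivProdPi fun _ : Fin N ⊕ Fin d => ℝ).symm p)
      = ∫⁻ p : (Fin N → ℝ) × (Fin d → ℝ),
          H1 C S e lam T (p.1, YY C S e T (Sum.elim p.1 p.2)) *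
            φ (YY C S e T (Sum.elim p.1 p.2)) := by
        refine lintegral_congr fun p => ?_
        have h1 : (MeasurableEquiv.sumPiEquivProdPi fun _ : Fin N ⊕ Fin d => ℝ).symm p =
            Sum.elim p.1 p.2 := by
          ext j
          rcases j with j | j <;> rfl
        rw [h1, Pi.mul_apply, Function.comp_apply,
          dens_pair C S e lam T hS hT p.1 p.2]
    _ = ∫⁻ x : Fin N → ℝ, ∫⁻ s : Fin d → ℝ,
          H1 C S e lam T (x, YY C S e T (Sum.elim x s)) * φ (YY C S e T (Sum.elim x s)) := by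
        rw [Measure.volume_eq_prod, lintegral_prod _ hF.aemeasurable]
    _ = ∫⁻ x : Fin N → ℝ, c * ∫⁻ y : Fin d → ℝ, H1 C S e lam T (x, y) * φ y := by
        refine lintegral_congr fun x => ?_
        exact subst C S e T hS hT x (fun y => H1 C S e lam T (x, y) * φ y)
          ((hH.comp measurable_prodMk_left).mul hφ)
    _ = c * ∫⁻ x : Fin N → ℝ, ∫⁻ y : Fin d → ℝ, H1 C S e lam T (x, y) * φ y := by
        rw [lintegral_const_mul]
        exact Measurable.lintegral_prod_right' (hH.mul (hφ.comp measurable_snd))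
    _ = c * ∫⁻ y : Fin d → ℝ, ∫⁻ x : Fin N → ℝ, H1 C S e lam T (x, y) * φ y := by
        rw [lintegral_lintegral_swap]
        exact (hH.mul (hφ.comp measurable_snd)).aemeasurable
    _ = ∫⁻ y : Fin d → ℝ, c * ∫⁻ x : Fin N → ℝ, H1 C S e lam T (x, y) * φ y := by
        rw [lintegral_const_mul]
        exact Measurable.lintegral_prod_left' (hH.mul (hφ.comp measurable_snd))
    _ = ∫⁻ y, ((fun y => ENNReal.ofReal (pp C S e lam T y)) * φ) y := by
        refine lintegral_congr fun y => ?_
        have h1 : Measurable fun x : Fin N → ℝ => H1 C S e lam T (x, y) :=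
          hH.comp measurable_prodMk_right
        rw [lintegral_mul_const _ h1, Pi.mul_apply, pp_eq C S e lam T hS y, mul_assoc]

end

end Pool.Agent.Helper67.FR
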