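import Pool.Agent.Helper92.FR.GoalsB

namespace Pool.Agent.Helper67.FR

open Pool.Agent.Helper92.FR Pool.Agent.Helper81.CC Pool.Agent.Bin

/-! ### The scaling factor -/

theorem size_bounds {a : ℕ} (ha : 0 < a) : ∃ k, Nat.size a = k + 1 ∧ 2 ^ k ≤ a ∧ a < 2 ^ (k + 1) := by
  have h1 : 0 < Nat.size a := Nat.size_pos.mpr ha
  obtain ⟨k, hk⟩ : ∃ k, Nat.size a = k + 1 := ⟨Nat.size a - 1, by omega⟩
  refine ⟨k, hk, ?_, ?_⟩
  · exact Nat.lt_size.mp (by omega)
  · rw [← hk]; exact Nat.lt_size_self a

theorem scl_spec (x : Qn) (hx : 0 < Qn.val x) :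
    0 < Qn.val (scl x) ∧ 1 / 2 ≤ Qn.val (scl x) ^ 2 * Qn.val x ∧
      Qn.val (scl x) ^ 2 * Qn.val x ≤ 4 := by
  have hlt := (Qn.val_pos_iff x).mp hx
  set p : ℕ := x.1.val - x.2.1.val with hp
  set r : ℕ := x.2.2.val + 1 with hr
  have hp0 : 0 < p := by omega
  have hr0 : 0 < r := by omega
  have hv : Qn.val x = (p : ℝ) / r := by
    unfold Qn.val
    rw [hp, hr, Nat.cast_sub hlt.le]
    push_cast
    rfl
  obtain ⟨a, ha, ha1, ha2⟩ := size_bounds hp0
  obtain ⟨b, hb, hb1, hb2⟩ := size_bounds hr0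
  have hsp : (x.1 - x.2.1).size = a + 1 := by rw [BN.size_eq]; exact ha
  have hsr : (x.2.2 + ⟨1⟩).size = b + 1 := by rw [BN.size_eq]; exact hb
  have hrR : (0 : ℝ) < r := by exact_mod_cast hr0
  have ha1' : (2 : ℝ) ^ a ≤ p := by exact_mod_cast ha1
  have ha2' : (p : ℝ) ≤ 2 ^ (a + 1) := by exact_mod_cast ha2.le
  have hb1' : (2 : ℝ) ^ b ≤ r := by exact_mod_cast hb1
  have hb2' : (r : ℝ) ≤ 2 ^ (b + 1) := by exact_mod_cast hb2.le
  rw [hv]
  unfold scl
  rw [hsp, hsr]
  split_ifs with h
  · -- b ≤ a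
    have e1 : (a + 1 - (b + 1)) / 2 = (a - b) / 2 := by congr 1; omega
    rw [e1]
    set t := (a - b) / 2 with ht
    have hval : Qn.val ((⟨1⟩, ⟨0⟩, BN.pow2 t - ⟨1⟩) : Qn) = 1 / 2 ^ t := by
      unfold Qn.val
      simp only [BN.val_sub, BN.val_pow2]
      rw [Nat.cast_sub Nat.one_le_two_pow]
      push_cast
      ring
    rw [hval]
    have h2t : (0 : ℝ) < 2 ^ t := by positivity
    refine ⟨by positivity, ?_, ?_⟩
    · rw [div_pow, one_pow, ← pow_mul, div_mul_div_comm, one_mul, div_le_div_iff₀ (by norm_num)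
        (by positivity), one_mul]
      have h3 : b + 1 + t * 2 ≤ a + 1 := by omega
      calc (2 : ℝ) ^ (t * 2) * r ≤ 2 ^ (t * 2) * 2 ^ (b + 1) := by gcongr
        _ = 2 ^ (b + 1 + t * 2) := by rw [← pow_add, add_comm]
        _ ≤ 2 ^ (a + 1) := pow_le_pow_right₀ (by norm_num) h3
        _ = 2 ^ a * 2 := pow_succ _ _
        _ ≤ p * 2 := by gcongr
    · rw [div_pow, one_pow, ← pow_mul, div_mul_div_comm, one_mul, div_le_iff₀ (by positivity)]
      have h3 : a + 1 ≤ b + t * 2 + 2 := by omega
      calc (p : ℝ) ≤ 2 ^ (a + 1) := ha2'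
        _ ≤ 2 ^ (b + t * 2 + 2) := pow_le_pow_right₀ (by norm_num) h3
        _ = 4 * (2 ^ (t * 2) * 2 ^ b) := by rw [pow_add, pow_add]; ring
        _ ≤ 4 * (2 ^ (t * 2) * r) := by gcongr
  · -- a < b
    have e1 : (b + 1 - (a + 1) + 1) / 2 = (b - a + 1) / 2 := by congr 1; omega
    rw [e1]
    set t := (b - a + 1) / 2 with ht
    have hval : Qn.val (Qn.ofBN (BN.pow2 t)) = 2 ^ t := by
      rw [Qn.val_ofBN, BN.val_pow2]; push_cast; rfl
    rw [hval]
    refine ⟨by positivity, ?_, ?_⟩
    · rw [← pow_mul, ← mul_div_assoc, div_le_div_iff₀ (by norm_num) hrR, one_mul]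
      have h3 : b + 1 ≤ t * 2 + a + 1 := by omega
      calc (r : ℝ) ≤ 2 ^ (b + 1) := hb2'
        _ ≤ 2 ^ (t * 2 + a + 1) := pow_le_pow_right₀ (by norm_num) h3
        _ = 2 ^ (t * 2) * 2 ^ a * 2 := by rw [pow_add, pow_add]; ring
        _ ≤ 2 ^ (t * 2) * p * 2 := by gcongr
    · rw [← pow_mul, ← mul_div_assoc, div_le_iff₀ hrR]
      have h3 : t * 2 + (a + 1) ≤ b + 2 := by omega
      calc (2 : ℝ) ^ (t * 2) * p ≤ 2 ^ (t * 2) * 2 ^ (a + 1) := by gcongr
        _ = 2 ^ (t * 2 + (a + 1)) := by rw [← pow_add]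
        _ ≤ 2 ^ (b + 2) := pow_le_pow_right₀ (by norm_num) h3
        _ = 4 * 2 ^ b := by rw [pow_add]; ring
        _ ≤ 4 * r := by gcongr

/-! ### Lists -/

theorem getD_map_range {α : Type} (f : ℕ → α) (d : α) {n i : ℕ} (h : i < n) :
    ((List.range n).map f).getD i d = f i := by
  rw [List.getD_eq_getElem _ _ (by simpa using h)]
  simp

theorem lv_rowsub {n : ℕ} (f : Qn) {x y : List Qn} (hx : x.length = n) (hy : y.length = n)
    (i : Fin n) : lv n (rowsub f x y) i = lv n x i - f.val * lv n y i := by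
  unfold lv rowsub
  rw [List.getD_eq_getElem _ _ (by rw [List.length_zipWith, hx, hy]; simp),
    List.getD_eq_getElem _ _ (by rw [hx]; exact i.2),
    List.getD_eq_getElem _ _ (by rw [hy]; exact i.2), List.getElem_zipWith, Qn.val_sub, Qn.val_mul]

theorem length_rowsub {n : ℕ} (f : Qn) {x y : List Qn} (hx : x.length = n) (hy : y.length = n) :
    (rowsub f x y).length = n := by
  unfold rowsub
  rw [List.length_zipWith, hx, hy, min_self]

theorem lv_map_mul {n : ℕ} (c : Qn) {x : List Qn} (hx : x.length = n) (i : Fin n) :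
    lv n (x.map (Qn.mul c)) i = c.val * lv n x i := by
  unfold lv
  rw [List.getD_eq_getElem _ _ (by rw [List.length_map, hx]; exact i.2),
    List.getD_eq_getElem _ _ (by rw [hx]; exact i.2), List.getElem_map, Qn.val_mul]

theorem prod_map_range (n : ℕ) (f : ℕ → ℝ) :
    ((List.range n).map f).prod = ∏ i : Fin n, f i := by
  induction n with
  | zero => simp
  | succ n ih =>
    rw [List.range_succ, List.map_append, List.prod_append, ih, Fin.prod_univ_castSucc]
    simp

/-- Well-formed states. -/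
structure SOK (n : ℕ) (st : List (List Qn) × List (List Qn)) : Prop where
  l1 : st.1.length = n
  l2 : st.2.length = n
  r1 : ∀ r < n, (st.1.getD r []).length = n
  r2 : ∀ r < n, (st.2.getD r []).length = n

section

variable {n : ℕ} {st : List (List Qn) × List (List Qn)}

theorem step1 (h : SOK n st) (i : ℕ) {r : ℕ} (hr : r < n) :
    (elimStep st i).1.getD r [] = if i < r then
      rowsub (Qn.mul ((st.1.getD r []).getD i Qn.zero)
        (Qn.inv ((st.1.getD i []).getD i Qn.zero))) (st.1.getD r []) (st.1.getD i [])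
    else st.1.getD r [] := by
  unfold elimStep
  rw [h.l1]
  exact getD_map_range _ _ hr

theorem step2 (h : SOK n st) (i : ℕ) {r : ℕ} (hr : r < n) :
    (elimStep st i).2.getD r [] = if i < r then
      rowsub (Qn.mul ((st.1.getD r []).getD i Qn.zero)
        (Qn.inv ((st.1.getD i []).getD i Qn.zero))) (st.2.getD r []) (st.2.getD i [])
    else st.2.getD r [] := by
  unfold elimStep
  rw [h.l1]
  exact getD_map_range _ _ hr

theorem SOK.step (h : SOK n st) (i : ℕ) : SOK n (elimStep st i) := by
  refine ⟨?_, ?_, ?_, ?_⟩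
  · unfold elimStep; simp [h.l1]
  · unfold elimStep; simp [h.l1]
  · intro r hr
    rw [step1 h i hr]
    split_ifs with hi
    · exact length_rowsub _ (h.r1 r hr) (h.r1 i (hi.trans hr))
    · exact h.r1 r hr
  · intro r hr
    rw [step2 h i hr]
    split_ifs with hi
    · exact length_rowsub _ (h.r2 r hr) (h.r2 i (hi.trans hr))
    · exact h.r2 r hr

theorem lm1 (h : SOK n st) (i r c : Fin n) :
    lm n (elimStep st i).1 r c = if i < r then
      lm n st.1 r c - lm n st.1 r i * (lm n st.1 i i)⁻¹ * lm n st.1 i c else lm n st.1 r c := by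
  have h1 : lm n (elimStep st i).1 r = lv n ((elimStep st i).1.getD r []) := rfl
  rw [h1, step1 h i r.2]
  by_cases hi : i < r
  · rw [if_pos (show (i : ℕ) < r from hi), if_pos hi, lv_rowsub _ (h.r1 r r.2) (h.r1 i i.2),
      Qn.val_mul, Qn.val_inv]
    rfl
  · rw [if_neg (show ¬ (i : ℕ) < r from hi), if_neg hi]
    rfl

theorem lm2 (h : SOK n st) (i r c : Fin n) :
    lm n (elimStep st i).2 r c = if i < r then
      lm n st.2 r c - lm n st.1 r i * (lm n st.1 i i)⁻¹ * lm n st.2 i c else lm n st.2 r c := by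
  have h1 : lm n (elimStep st i).2 r = lv n ((elimStep st i).2.getD r []) := rfl
  rw [h1, step2 h i r.2]
  by_cases hi : i < r
  · rw [if_pos (show (i : ℕ) < r from hi), if_pos hi, lv_rowsub _ (h.r2 r r.2) (h.r2 i i.2),
      Qn.val_mul, Qn.val_inv]
    rfl
  · rw [if_neg (show ¬ (i : ℕ) < r from hi), if_neg hi]
    rfl

theorem lm1' (h : SOK n st) {i : ℕ} (hi : n ≤ i) : lm n (elimStep st i).1 = lm n st.1 := by
  ext r c
  have h1 : lm n (elimStep st i).1 r = lv n ((elimStep st i).1.getD r []) := rfl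
  rw [h1, step1 h i r.2, if_neg (by omega)]
  rfl

theorem lm2' (h : SOK n st) {i : ℕ} (hi : n ≤ i) : lm n (elimStep st i).2 = lm n st.2 := by
  ext r c
  have h1 : lm n (elimStep st i).2 r = lv n ((elimStep st i).2.getD r []) := rfl
  rw [h1, step2 h i r.2, if_neg (by omega)]
  rfl

end

/-- The invariant. -/
structure Inv (n : ℕ) (A : Matrix (Fin n) (Fin n) ℝ) (k : ℕ)
    (st : List (List Qn) × List (List Qn)) : Prop where
  ok : SOK n st
  mul : lm n st.1 = lm n st.2 * A
  low : ∀ r c : Fin n, r < c → lm n st.2 r c = 0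
  dia : ∀ r : Fin n, lm n st.2 r r = 1
  zer : ∀ i r : Fin n, (i : ℕ) < k → i < r → lm n st.1 r i = 0

section

variable {n : ℕ} {A : Matrix (Fin n) (Fin n) ℝ} {k : ℕ} {st : List (List Qn) × List (List Qn)}

theorem Inv.diag (h : Inv n A k st) {i : Fin n} (hi : (i : ℕ) ≤ k) :
    (lm n st.2 * A * (lm n st.2).transpose) i i = lm n st.1 i i := by
  rw [← h.mul, Matrix.mul_apply, Finset.sum_eq_single i]
  · rw [Matrix.transpose_apply, h.dia, mul_one]
  · intro c _ hc
    rw [Matrix.transpose_apply]
    rcases lt_or_gt_of_ne hc with h1 | h1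
    · rw [h.zer c i (by have : (c : ℕ) < i := h1; omega) h1, zero_mul]
    · rw [h.low i c h1, mul_zero]
  · intro h1; exact absurd (Finset.mem_univ i) h1

theorem Inv.pos (h : Inv n A k st) (hA : A.PosDef) {i : Fin n} (hi : (i : ℕ) ≤ k) :
    0 < lm n st.1 i i := by
  rw [← h.diag hi]
  have hne : lm n st.2 i ≠ 0 := by
    intro h0
    have := h.dia i
    rw [h0] at this
    simp at this
  have h1 := hA.dotProduct_mulVec_pos hne
  have h2 : (lm n st.2 * A * (lm n st.2).transpose) i i =
      star (lm n st.2 i) ⬝ᵥ A.mulVec (lm n st.2 i) := by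
    rw [Matrix.mul_assoc, Matrix.mul_apply]
    simp only [dotProduct, Matrix.mulVec, Matrix.mul_apply, Matrix.transpose_apply, Pi.star_apply,
      star_trivial]
  rw [h2]
  exact h1

theorem Inv.step (h : Inv n A k st) (hA : A.PosDef) : Inv n A (k + 1) (elimStep st k) := by
  by_cases hk : k < n
  · obtain ⟨i0, hi0⟩ : ∃ i0 : Fin n, (i0 : ℕ) = k := ⟨⟨k, hk⟩, rfl⟩
    subst hi0
    have hp := h.pos hA (le_refl (i0 : ℕ))
    refine ⟨h.ok.step _, ?_, ?_, ?_, ?_⟩
    · ext r c
      rw [lm1 h.ok, Matrix.mul_apply]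
      simp only [lm2 h.ok]
      by_cases hr : i0 < r
      · simp only [if_pos hr]
        rw [h.mul]
        simp only [sub_mul, Finset.sum_sub_distrib]
        rw [← Matrix.mul_apply]
        congr 1
        conv_lhs => rw [Matrix.mul_apply (M := lm n st.2) (N := A) (i := i0) (k := c)]
        rw [Finset.mul_sum]
        refine Finset.sum_congr rfl fun j _ => ?_
        ring
      · simp only [if_neg hr]
        rw [h.mul, Matrix.mul_apply]
    · intro r c hrc
      rw [lm2 h.ok]
      split_ifs with hr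
      · rw [h.low r c hrc, h.low i0 c (hr.trans hrc), mul_zero, sub_zero]
      · exact h.low r c hrc
    · intro r
      rw [lm2 h.ok]
      split_ifs with hr
      · rw [h.dia, h.low i0 r hr, mul_zero, sub_zero]
      · exact h.dia r
    · intro i r hi hir
      rw [lm1 h.ok]
      by_cases hi2 : i = i0
      · subst hi2
        rw [if_pos hir, mul_assoc, inv_mul_cancel₀ hp.ne', mul_one, sub_self]
      · have hlt : (i : ℕ) < i0 := by
          have : (i : ℕ) ≠ i0 := fun h => hi2 (Fin.ext h)
          omega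
        have h1 := h.zer i r hlt hir
        have h2 := h.zer i i0 hlt hlt
        split_ifs with hr
        · rw [h1, h2, mul_zero, sub_zero]
        · exact h1
  · push Not at hk
    refine ⟨h.ok.step _, ?_, ?_, ?_, ?_⟩
    · rw [lm1' h.ok hk, lm2' h.ok hk, h.mul]
    · rw [lm2' h.ok hk]; exact h.low
    · rw [lm2' h.ok hk]; exact h.dia
    · rw [lm1' h.ok hk]
      intro i r _ hir
      exact h.zer i r (i.2.trans_le hk) hir

end

theorem elim_succ (A : List (List Qn)) (m : ℕ) : elim A (m + 1) = elimStep (elim A m) m := by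
  unfold elim
  rw [List.range_succ, List.foldl_append]
  rfl

theorem inv_elim {n : ℕ} {A : List (List Qn)} (hA : A.length = n) (hr : ∀ r ∈ A, r.length = n)
    (hp : (lm n A).PosDef) (m : ℕ) : Inv n (lm n A) m (elim A m) := by
  induction m with
  | zero =>
    have h0 : elim A 0 = (A, idM A.length) := rfl
    have hid : lm n (idM n) = 1 := by
      ext r c
      have h1 : lm n (idM n) r = lv n ((idM n).getD r []) := rfl
      rw [h1]
      unfold idM lv
      rw [getD_map_range _ _ r.2, getD_map_range _ _ c.2]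
      by_cases hrc : c = r
      · subst hrc; simp
      · rw [if_neg (fun h => hrc (Fin.ext h)), Qn.val_zero, Matrix.one_apply_ne (Ne.symm hrc)]
    rw [h0, hA]
    refine ⟨⟨hA, by unfold idM; simp, ?_, ?_⟩, ?_, ?_, ?_, ?_⟩
    · intro r hrn
      apply hr
      change A.getD r [] ∈ A
      rw [List.getD_eq_getElem _ _ (by rw [hA]; exact hrn)]
      exact List.getElem_mem _
    · intro r hrn
      change ((idM n).getD r []).length = n
      unfold idM
      rw [getD_map_range _ _ hrn]
      simp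
    · change lm n A = lm n (idM n) * lm n A
      rw [hid, one_mul]
    · intro r c hrc
      change lm n (idM n) r c = 0
      rw [hid, Matrix.one_apply_ne hrc.ne]
    · intro r
      change lm n (idM n) r r = 1
      rw [hid, Matrix.one_apply_eq]
    · intro i r hi _
      omega
  | succ m ih => rw [elim_succ]; exact ih.step hp

theorem ldl : LdlStmt := by
  intro n m A hA hr hnm hp
  have hI := inv_elim hA hr hp m
  set U := lm n (elim A m).1 with hU
  set M := lm n (elim A m).2 with hM
  have hlowM : ∀ i j : Fin n, i < j → M i j = 0 := hI.low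
  have hzer : ∀ i r : Fin n, i < r → U r i = 0 := fun i r h => hI.zer i r (i.2.trans_le hnm) h
  have hmul : U = M * lm n A := hI.mul
  -- the pivots
  have hpiv : ∀ i : Fin n, Qn.val ((pivs A m).getD i Qn.zero) = U i i := by
    intro i
    unfold pivs
    rw [hA, getD_map_range _ _ i.2]
    rfl
  have hpos : ∀ i : Fin n, 0 < U i i := fun i => hI.pos hp (i.2.le.trans hnm)
  set ρ : Fin n → ℝ := fun i => Qn.val (scl ((pivs A m).getD i Qn.zero)) with hρ
  have hρs : ∀ i, 0 < ρ i ∧ 1 / 2 ≤ ρ i ^ 2 * U i i ∧ ρ i ^ 2 * U i i ≤ 4 := by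
    intro i
    have h1 := scl_spec ((pivs A m).getD i Qn.zero) (by rw [hpiv]; exact hpos i)
    rw [hpiv] at h1
    exact h1
  -- the list
  have hrow : ∀ r < n, (tmat A m).getD r [] =
      ((elim A m).2.getD r []).map (Qn.mul (scl ((pivs A m).getD r Qn.zero))) := by
    intro r hrn
    unfold tmat
    rw [hA, getD_map_range _ _ hrn]
  have hlen : (tmat A m).length = n := by unfold tmat; simp [hA]
  have hT : lm n (tmat A m) = Matrix.diagonal ρ * M := by
    ext r c
    have h1 : lm n (tmat A m) r = lv n ((tmat A m).getD r []) := rfl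
    rw [h1, hrow r r.2, lv_map_mul _ (hI.ok.r2 r r.2), Matrix.diagonal_mul]
    rfl
  have hD : M * lm n A * M.transpose = Matrix.diagonal fun i => U i i := by
    have hlow : ∀ r c : Fin n, c < r → (M * lm n A * M.transpose) r c = 0 := by
      intro r c hrc
      rw [← hmul, Matrix.mul_apply]
      refine Finset.sum_eq_zero fun j _ => ?_
      rw [Matrix.transpose_apply]
      rcases lt_or_ge c j with h1 | h1
      · rw [hlowM c j h1, mul_zero]
      · rw [hzer j r (h1.trans_lt hrc), zero_mul]
    have hsym : (M * lm n A * M.transpose).transpose = M * lm n A * M.transpose := by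
      have h1 : (lm n A).transpose = lm n A := by
        have := hp.isHermitian
        rwa [Matrix.IsHermitian, Matrix.conjTranspose_eq_transpose_of_trivial] at this
      rw [Matrix.transpose_mul, Matrix.transpose_mul, Matrix.transpose_transpose, h1,
        Matrix.mul_assoc]
    ext r c
    rcases lt_trichotomy r c with h1 | h1 | h1
    · rw [Matrix.diagonal_apply_ne _ h1.ne, ← hsym, Matrix.transpose_apply]
      exact hlow c r h1
    · subst h1
      rw [Matrix.diagonal_apply_eq]
      exact hI.diag (r.2.le.trans hnm)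
    · rw [Matrix.diagonal_apply_ne _ h1.ne', hlow r c h1]
  have htd : Qn.val (tdet A m) = ∏ i, ρ i := by
    unfold tdet
    rw [Qn.val_prod, List.map_map]
    have h1 : pivs A m = (List.range n).map fun i => (pivs A m).getD i Qn.zero := by
      have hl : (pivs A m).length = n := by unfold pivs; simp [hA]
      apply List.ext_getElem
      · simp [hl]
      · intro i h1 h2
        rw [List.getElem_map, List.getElem_range, List.getD_eq_getElem _ _ h1]
    conv_lhs => rw [h1]
    rw [List.map_map, prod_map_range]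
    rfl
  refine ⟨hlen, ?_, ⟨fun i => ρ i ^ 2 * U i i, fun i => (hρs i).2, ?_⟩, ?_, ?_⟩
  · intro t ht
    obtain ⟨r, hr1, hr2⟩ := List.getElem_of_mem ht
    have hrn : r < n := by rw [← hlen]; exact hr1
    rw [← hr2, ← List.getD_eq_getElem _ [] hr1, hrow r hrn, List.length_map]
    exact hI.ok.r2 r hrn
  · rw [hT, Matrix.transpose_mul, Matrix.diagonal_transpose]
    have h1 : Matrix.diagonal ρ * M * lm n A * (M.transpose * Matrix.diagonal ρ) =
        Matrix.diagonal ρ * (M * lm n A * M.transpose) * Matrix.diagonal ρ := by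
      simp only [Matrix.mul_assoc]
    rw [h1, hD, Matrix.diagonal_mul_diagonal, Matrix.diagonal_mul_diagonal]
    congr 1
    funext i
    ring
  · have hdM : M.det = 1 := by
      rw [Matrix.det_of_isLowerTriangular (M := M) fun i j hij => hlowM i j hij]
      exact Finset.prod_eq_one fun i _ => hI.dia i
    rw [hT, Matrix.det_mul, Matrix.det_diagonal, hdM, mul_one, htd]
  · rw [htd]
    exact Finset.prod_pos fun i _ => (hρs i).1

end Pool.Agent.Helper67.FR
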